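import Mathlib
import Pool.Agent.K1H47.CO.Stm2

/-!
# Piece `S_REL` of the project CO (helper47): Hilbert functions of homogeneous ideals with a quotient of
small Krull dimension, and a relation modulo such an ideal
-/

set_option autoImplicit false

namespace Pool.Agent.K1H65.CO

open MvPolynomial Module

universe u

variable {K : Type u} [Field K] {n : ℕ}

/-- homogeneous ideals -/
def Hg (I : Ideal (MvPolynomial (Fin (n + 1)) K)) : Prop :=
  ∀ f ∈ I, ∀ j : ℕ, homogeneousComponent j f ∈ I

/-- the classes of functions `𝒢_t` -/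
def Gc : ℕ → (ℕ → ℕ) → Prop
  | 0, k => ∃ c : ℕ, ∀ N, c ≤ N → k N = 0
  | t + 1, k => ∃ c : ℕ, ∀ N, k N ≤ c * (N + 1) ^ t

lemma gc_mono {t : ℕ} {k k' : ℕ → ℕ} (h : ∀ N, k' N ≤ k N) (hk : Gc t k) : Gc t k' := by
  cases t with
  | zero =>
    obtain ⟨c, hc⟩ := hk
    exact ⟨c, fun N hN => Nat.le_zero.mp ((h N).trans (hc N hN).le)⟩
  | succ t =>
    obtain ⟨c, hc⟩ := hk
    exact ⟨c, fun N => (h N).trans (hc N)⟩

lemma gc_add {t : ℕ} {k k' : ℕ → ℕ} (hk : Gc t k) (hk' : Gc t k') :
    Gc t (fun N => k N + k' N) := by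
  cases t with
  | zero =>
    obtain ⟨c, hc⟩ := hk
    obtain ⟨c', hc'⟩ := hk'
    refine ⟨c + c', fun N hN => ?_⟩
    change k N + k' N = 0
    rw [hc N (by omega), hc' N (by omega)]
  | succ t =>
    obtain ⟨c, hc⟩ := hk
    obtain ⟨c', hc'⟩ := hk'
    refine ⟨c + c', fun N => ?_⟩
    change k N + k' N ≤ _
    rw [add_mul]
    exact add_le_add (hc N) (hc' N)

lemma gc_zero_fun {t : ℕ} : Gc t (fun _ => 0) := by
  cases t with
  | zero => exact ⟨0, fun _ _ => rfl⟩
  | succ t => exact ⟨0, fun _ => Nat.zero_le _⟩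

/-- functions which vanish for large arguments are in all classes -/
lemma gc_of_zero {t : ℕ} {k : ℕ → ℕ} (hk : Gc 0 k) : Gc t k := by
  cases t with
  | zero => exact hk
  | succ t =>
    obtain ⟨c, hc⟩ := hk
    refine ⟨∑ j ∈ Finset.range c, k j, fun N => ?_⟩
    rcases lt_or_ge N c with h | h
    · have h1 : k N ≤ ∑ j ∈ Finset.range c, k j :=
        Finset.single_le_sum (f := k) (fun _ _ => Nat.zero_le _) (Finset.mem_range.mpr h)
      refine h1.trans ?_
      exact Nat.le_mul_of_pos_right _ (by positivity)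
    · rw [hc N h]
      exact Nat.zero_le _

lemma gc_shift {t : ℕ} {k : ℕ → ℕ} (hk : Gc t k) (e : ℕ) :
    Gc t (fun N => if N < e then 0 else k (N - e)) := by
  cases t with
  | zero =>
    obtain ⟨c, hc⟩ := hk
    refine ⟨c + e, fun N hN => ?_⟩
    change (if N < e then 0 else k (N - e)) = 0
    split_ifs with h
    · rfl
    · exact hc _ (by omega)
  | succ t =>
    obtain ⟨c, hc⟩ := hk
    refine ⟨c, fun N => ?_⟩
    change (if N < e then 0 else k (N - e)) ≤ _
    split_ifs with h
    · exact Nat.zero_le _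
    · refine (hc _).trans ?_
      apply Nat.mul_le_mul_left
      apply Nat.pow_le_pow_left
      omega

lemma gc_fin {t : ℕ} (k : ℕ → ℕ) (e : ℕ) : Gc t (fun N => if N < e then k N else 0) := by
  apply gc_of_zero
  refine ⟨e, fun N hN => ?_⟩
  change (if N < e then k N else 0) = 0
  rw [if_neg (by omega)]

lemma gc_sum {t : ℕ} {k : ℕ → ℕ} (hk : Gc t k) :
    Gc (t + 1) (fun N => 1 + ∑ j ∈ Finset.range (N + 1), k j) := by
  cases t with
  | zero =>
    obtain ⟨c, hc⟩ := hk
    refine ⟨1 + ∑ j ∈ Finset.range c, k j, fun N => ?_⟩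
    change 1 + ∑ j ∈ Finset.range (N + 1), k j ≤ _
    rw [pow_zero, mul_one]
    apply Nat.add_le_add_left
    rcases le_or_gt (N + 1) c with h | h
    · exact Finset.sum_le_sum_of_subset (Finset.range_mono h)
    · rw [← Finset.sum_range_add_sum_Ico _ h.le]
      rw [Finset.sum_eq_zero (s := Finset.Ico c (N + 1)) (fun x hx => hc x (Finset.mem_Ico.mp hx).1)]
      omega
  | succ t =>
    obtain ⟨c, hc⟩ := hk
    refine ⟨1 + c, fun N => ?_⟩
    change 1 + ∑ j ∈ Finset.range (N + 1), k j ≤ _
    rw [add_mul, one_mul]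
    refine add_le_add (Nat.one_le_pow _ _ (by omega)) ?_
    calc ∑ j ∈ Finset.range (N + 1), k j ≤ ∑ _j ∈ Finset.range (N + 1), c * (N + 1) ^ t := by
          refine Finset.sum_le_sum fun j hj => (hc j).trans ?_
          apply Nat.mul_le_mul_left
          apply Nat.pow_le_pow_left
          have := Finset.mem_range.mp hj
          omega
      _ = c * (N + 1) ^ (t + 1) := by
          rw [Finset.sum_const, Finset.card_range, smul_eq_mul, pow_succ]
          ring

/-- the Hilbert function of `I` at `N` is at most `k` -/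
def Bd (I : Ideal (MvPolynomial (Fin (n + 1)) K)) (N k : ℕ) : Prop :=
  ∃ W : Submodule K (MvPolynomial (Fin (n + 1)) K), W ≤ homogeneousSubmodule (Fin (n + 1)) K N ∧
    finrank K W ≤ k ∧ ∀ f : MvPolynomial (Fin (n + 1)) K, f.IsHomogeneous N →
      ∃ w ∈ W, f - w ∈ I

instance fin_homog (N : ℕ) : Module.Finite K (homogeneousSubmodule (Fin (n + 1)) K N) :=
  Module.Finite.iff_fg.2 (homogeneousSubmodule_fg (Fin (n + 1)) K N)

lemma fin_le {W : Submodule K (MvPolynomial (Fin (n + 1)) K)} {N : ℕ}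
    (h : W ≤ homogeneousSubmodule (Fin (n + 1)) K N) : Module.Finite K W :=
  Submodule.finiteDimensional_of_le h

lemma bd_all (I : Ideal (MvPolynomial (Fin (n + 1)) K)) (N : ℕ) :
    Bd I N (finrank K (homogeneousSubmodule (Fin (n + 1)) K N)) :=
  ⟨_, le_rfl, le_rfl, fun f hf => ⟨f, hf, by rw [sub_self]; exact I.zero_mem⟩⟩

lemma bd_zero {I : Ideal (MvPolynomial (Fin (n + 1)) K)} {N : ℕ}
    (h : ∀ f : MvPolynomial (Fin (n + 1)) K, f.IsHomogeneous N → f ∈ I) : Bd I N 0 :=
  ⟨⊥, bot_le, by rw [finrank_bot], fun f hf => ⟨0, Submodule.zero_mem _, by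
    rw [sub_zero]; exact h f hf⟩⟩

lemma bd_mono {I : Ideal (MvPolynomial (Fin (n + 1)) K)} {N k k' : ℕ} (h : Bd I N k)
    (hk : k ≤ k') : Bd I N k' := by
  obtain ⟨W, h1, h2, h3⟩ := h
  exact ⟨W, h1, h2.trans hk, h3⟩

/-- components of a multiple of a form -/
lemma comp_mul {a : MvPolynomial (Fin (n + 1)) K} {e : ℕ} (ha : a.IsHomogeneous e)
    (g : MvPolynomial (Fin (n + 1)) K) (N : ℕ) :
    homogeneousComponent N (a * g) =
      if e ≤ N then a * homogeneousComponent (N - e) g else 0 := by
  conv_lhs => rw [← sum_homogeneousComponent g, Finset.mul_sum, map_sum]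
  have h1 : ∀ i ∈ Finset.range (g.totalDegree + 1),
      homogeneousComponent N (a * homogeneousComponent i g) =
        if i + e = N then a * homogeneousComponent i g else 0 := by
    intro i _
    have h2 : (a * homogeneousComponent i g).IsHomogeneous (e + i) :=
      ha.mul (homogeneousComponent_isHomogeneous i g)
    rw [homogeneousComponent_of_mem ((mem_homogeneousSubmodule _ _).mpr h2)]
    by_cases h : i + e = N
    · rw [if_pos h, if_pos (by omega)]
    · rw [if_neg h, if_neg (by omega)]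
  rw [Finset.sum_congr rfl h1]
  split_ifs with h
  · have h2 : ∀ i ∈ Finset.range (g.totalDegree + 1),
        (if i + e = N then a * homogeneousComponent i g else 0) =
          if N - e = i then a * homogeneousComponent (N - e) g else 0 := by
      intro i _
      by_cases h3 : i + e = N
      · have h4 : N - e = i := by omega
        rw [if_pos h3, if_pos h4, h4]
      · rw [if_neg h3, if_neg (by omega)]
    rw [Finset.sum_congr rfl h2, Finset.sum_ite_eq]
    split_ifs with h5
    · rfl
    · rw [homogeneousComponent_eq_zero, mul_zero]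
      simp only [Finset.mem_range, not_lt] at h5
      omega
  · refine Finset.sum_eq_zero fun i _ => ?_
    rw [if_neg (by omega)]

lemma hg_sup {I : Ideal (MvPolynomial (Fin (n + 1)) K)} (hI : Hg I)
    {a : MvPolynomial (Fin (n + 1)) K} {e : ℕ} (ha : a.IsHomogeneous e) :
    Hg (I ⊔ Ideal.span {a}) := by
  intro f hf j
  obtain ⟨y, hy, z, hz, rfl⟩ := Submodule.mem_sup.mp hf
  obtain ⟨g, rfl⟩ := Ideal.mem_span_singleton.mp hz
  rw [map_add, comp_mul ha]
  refine Ideal.add_mem _ (Ideal.mem_sup_left (hI y hy j)) ?_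
  split_ifs
  · exact Ideal.mem_sup_right (Ideal.mul_mem_right _ _ (Ideal.mem_span_singleton_self a))
  · exact Ideal.zero_mem _

/-- the quotient ideal `(I : a)` -/
noncomputable def cln (I : Ideal (MvPolynomial (Fin (n + 1)) K)) (a : MvPolynomial (Fin (n + 1)) K) :
    Ideal (MvPolynomial (Fin (n + 1)) K) :=
  Submodule.comap (LinearMap.mulLeft (MvPolynomial (Fin (n + 1)) K) a) I

lemma mem_cln {I : Ideal (MvPolynomial (Fin (n + 1)) K)} {a g : MvPolynomial (Fin (n + 1)) K} :
    g ∈ cln I a ↔ a * g ∈ I := Iff.rfl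

lemma hg_cln {I : Ideal (MvPolynomial (Fin (n + 1)) K)} (hI : Hg I)
    {a : MvPolynomial (Fin (n + 1)) K} {e : ℕ} (ha : a.IsHomogeneous e) : Hg (cln I a) := by
  intro g hg j
  have h1 := hI _ (mem_cln.mp hg) (j + e)
  rw [comp_mul ha, if_pos (by omega), Nat.add_sub_cancel] at h1
  exact h1

/-- the basic inequality for Hilbert functions -/
lemma bd_step {I J : Ideal (MvPolynomial (Fin (n + 1)) K)} (hI : Hg I)
    {a : MvPolynomial (Fin (n + 1)) K} {e : ℕ} (ha : a.IsHomogeneous e)
    (hJ : ∀ g ∈ J, a * g ∈ I) {N k₁ k₂ : ℕ} (hN : e ≤ N)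
    (h1 : Bd (I ⊔ Ideal.span {a}) N k₁) (h2 : Bd J (N - e) k₂) : Bd I N (k₁ + k₂) := by
  obtain ⟨W₁, hW₁, hk₁, hf₁⟩ := h1
  obtain ⟨W₂, hW₂, hk₂, hf₂⟩ := h2
  have hf1 := fin_le hW₁
  have hf2 := fin_le hW₂
  refine ⟨W₁ ⊔ W₂.map (LinearMap.mulLeft K a), ?_, ?_, ?_⟩
  · refine sup_le hW₁ ?_
    rintro _ ⟨w, hw, rfl⟩
    have h3 : w.IsHomogeneous (N - e) := hW₂ hw
    have h4 := ha.mul h3
    rw [show e + (N - e) = N by omega] at h4
    exact h4
  · refine (Submodule.finrank_add_le_finrank_add_finrank _ _).trans ?_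
    exact add_le_add hk₁ ((Submodule.finrank_map_le _ _).trans hk₂)
  · intro f hf
    obtain ⟨w, hw, hfw⟩ := hf₁ f hf
    obtain ⟨y, hy, z, hz, hyz⟩ := Submodule.mem_sup.mp hfw
    obtain ⟨g, rfl⟩ := Ideal.mem_span_singleton.mp hz
    have hwh : w.IsHomogeneous N := hW₁ hw
    have h3 : homogeneousComponent N (f - w) = f - w := by
      rw [homogeneousComponent_of_mem ((mem_homogeneousSubmodule _ _).mpr (hf.sub hwh)), if_pos rfl]
    rw [← hyz, map_add, comp_mul ha, if_pos hN] at h3
    obtain ⟨v, hv, hgv⟩ := hf₂ (homogeneousComponent (N - e) g)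
      (homogeneousComponent_isHomogeneous _ g)
    refine ⟨w + a * v, Submodule.add_mem_sup hw ⟨v, hv, rfl⟩, ?_⟩
    have h4 : f - (w + a * v) = homogeneousComponent N y +
        a * (homogeneousComponent (N - e) g - v) := by
      rw [mul_sub, ← add_sub_assoc, h3, hyz]
      ring
    rw [h4]
    exact I.add_mem (hI y hy N) (hJ _ hgv)

lemma dim_mono {I J : Ideal (MvPolynomial (Fin (n + 1)) K)} (h : I ≤ J) :
    ringKrullDim (MvPolynomial (Fin (n + 1)) K ⧸ J) ≤
      ringKrullDim (MvPolynomial (Fin (n + 1)) K ⧸ I) :=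
  ringKrullDim_le_of_surjective (Ideal.Quotient.factor h) (Ideal.Quotient.factor_surjective h)

lemma dim_prime {I : Ideal (MvPolynomial (Fin (n + 1)) K)} (hI : I.IsPrime)
    {a : MvPolynomial (Fin (n + 1)) K} (ha : a ∉ I) :
    ringKrullDim (MvPolynomial (Fin (n + 1)) K ⧸ (I ⊔ Ideal.span {a})) + 1 ≤
      ringKrullDim (MvPolynomial (Fin (n + 1)) K ⧸ I) := by
  have h1 : (Ideal.Quotient.mk I a) ∈ nonZeroDivisors (MvPolynomial (Fin (n + 1)) K ⧸ I) := by
    rw [mem_nonZeroDivisors_iff_ne_zero]
    intro h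
    exact ha (Ideal.Quotient.eq_zero_iff_mem.mp h)
  refine le_trans ?_ (ringKrullDim_quotient_succ_le_of_nonZeroDivisor h1)
  gcongr
  have h2 : (Ideal.span {a}).map (Ideal.Quotient.mk I) = Ideal.span {Ideal.Quotient.mk I a} := by
    rw [Ideal.map_span, Set.image_singleton]
  rw [← h2]
  exact (ringKrullDim_eq_of_ringEquiv (DoubleQuot.quotQuotEquivQuotSup I (Ideal.span {a}))).symm.le

/-- a proper homogeneous ideal is in the irrelevant ideal -/
lemma proper_const {I : Ideal (MvPolynomial (Fin (n + 1)) K)} (hI : Hg I) (h : I ≠ ⊤) :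
    I ≤ RingHom.ker (constantCoeff : MvPolynomial (Fin (n + 1)) K →+* K) := by
  intro f hf
  rw [RingHom.mem_ker]
  by_contra h1
  apply h
  have h2 := hI f hf 0
  rw [homogeneousComponent_zero] at h2
  refine Ideal.eq_top_of_isUnit_mem _ h2 ?_
  apply IsUnit.map
  rw [isUnit_iff_ne_zero]
  exact h1

lemma mem_of_X {I : Ideal (MvPolynomial (Fin (n + 1)) K)} (h : ∀ i, X i ∈ I) {N : ℕ} (hN : 1 ≤ N)
    {f : MvPolynomial (Fin (n + 1)) K} (hf : f.IsHomogeneous N) : f ∈ I := by
  rw [← support_sum_monomial_coeff f]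
  refine Ideal.sum_mem _ fun m hm => ?_
  have h1 : m ≠ 0 := by
    rintro rfl
    have h2 := hf (mem_support_iff.mp hm)
    simp at h2
    omega
  obtain ⟨i, hi⟩ : ∃ i, m i ≠ 0 := by
    by_contra h2
    push Not at h2
    exact h1 (Finsupp.ext h2)
  have h2 : monomial m (coeff m f) = X i * monomial (m - Finsupp.single i 1) (coeff m f) := by
    rw [X, monomial_mul, one_mul, add_tsub_cancel_of_le]
    rw [Finsupp.single_le_iff]
    omega
  rw [h2]
  exact Ideal.mul_mem_right _ _ (h i)

lemma finrank_zero_le : finrank K (homogeneousSubmodule (Fin (n + 1)) K 0) ≤ 1 := by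
  have h1 : homogeneousSubmodule (Fin (n + 1)) K 0 ≤ Submodule.span K {(1 : MvPolynomial (Fin (n + 1)) K)} := by
    intro f hf
    have h2 : f.IsHomogeneous 0 := hf
    rw [Submodule.mem_span_singleton]
    refine ⟨coeff 0 f, ?_⟩
    have h3 : homogeneousComponent 0 f = f := by
      rw [homogeneousComponent_of_mem ((mem_homogeneousSubmodule _ _).mpr h2), if_pos rfl]
    rw [homogeneousComponent_zero] at h3
    rw [← C_mul', mul_one, h3]
  refine (Submodule.finrank_mono h1).trans ?_
  refine (finrank_span_le_card {(1 : MvPolynomial (Fin (n + 1)) K)}).trans ?_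
  simp

lemma prime_of {I : Ideal (MvPolynomial (Fin (n + 1)) K)} (hI : Hg I) (ht : I ≠ ⊤)
    (h : ∀ (a b : MvPolynomial (Fin (n + 1)) K) (e e' : ℕ), a.IsHomogeneous e →
      b.IsHomogeneous e' → a * b ∈ I → a ∈ I ∨ b ∈ I) : I.IsPrime := by
  let _ := MvPolynomial.gradedAlgebra (σ := Fin (n + 1)) (R := K)
  have h1 : I.IsHomogeneous (homogeneousSubmodule (Fin (n + 1)) K) := by
    intro j f hf
    have h2 : ((DirectSum.decompose (homogeneousSubmodule (Fin (n + 1)) K) f) j :
        MvPolynomial (Fin (n + 1)) K) = homogeneousComponent j f :=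
      decomposition.decompose'_apply f j
    rw [h2]
    exact hI f hf j
  refine h1.isPrime_of_homogeneous_mem_or_mem ht ?_
  rintro a b ⟨e, ha⟩ ⟨e', hb⟩ hab
  exact h a b e e' ha hb hab

theorem main (t : ℕ) : ∀ I : Ideal (MvPolynomial (Fin (n + 1)) K), Hg I →
    ringKrullDim (MvPolynomial (Fin (n + 1)) K ⧸ I) ≤ t →
    ∃ k : ℕ → ℕ, Gc t k ∧ ∀ N, Bd I N (k N) := by
  induction t using Nat.strong_induction_on with
  | _ t iht =>
    intro I
    induction I using WellFoundedGT.induction with
    | ind I ihI =>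
      intro hI hd
      by_cases htop : I = ⊤
      · exact ⟨fun _ => 0, gc_zero_fun, fun N => bd_zero fun f _ => by
          rw [htop]; exact Submodule.mem_top⟩
      by_cases hp : I.IsPrime
      · by_cases hX : ∀ i, X i ∈ I
        · refine ⟨fun N => if N < 1 then finrank K (homogeneousSubmodule (Fin (n + 1)) K N) else 0,
            gc_fin _ 1, fun N => ?_⟩
          change Bd I N (if N < 1 then _ else 0)
          split_ifs with h
          · exact bd_all I N
          · exact bd_zero fun f hf => mem_of_X hX (by omega) hf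
        · push Not at hX
          obtain ⟨i, hi⟩ := hX
          have h1 := dim_prime hp hi
          have hJtop : I ⊔ Ideal.span {X i} ≠ ⊤ := by
            intro h
            have h2 : I ⊔ Ideal.span {X i} ≤
                RingHom.ker (constantCoeff : MvPolynomial (Fin (n + 1)) K →+* K) := by
              refine sup_le (proper_const hI htop) ?_
              rw [Ideal.span_singleton_le_iff_mem, RingHom.mem_ker, constantCoeff_X]
            rw [h] at h2
            have h3 := h2 (Submodule.mem_top (x := (1 : MvPolynomial (Fin (n + 1)) K)))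
            rw [RingHom.mem_ker, map_one] at h3
            exact one_ne_zero h3
          have h2 : (0 : WithBot ℕ∞) ≤
              ringKrullDim (MvPolynomial (Fin (n + 1)) K ⧸ (I ⊔ Ideal.span {X i})) := by
            have := Ideal.Quotient.nontrivial_iff.mpr hJtop
            exact ringKrullDim_nonneg_of_nontrivial
          have h3 := h1.trans hd
          obtain ⟨s, rfl⟩ : ∃ s, t = s + 1 := by
            cases t with
            | zero =>
              exfalso
              have h4 : (1 : WithBot ℕ∞) ≤ ((0 : ℕ) : WithBot ℕ∞) := by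
                refine le_trans ?_ h3
                calc (1 : WithBot ℕ∞) = 0 + 1 := by rw [zero_add]
                  _ ≤ _ := by gcongr
              exact absurd h4 (by decide)
            | succ s => exact ⟨s, rfl⟩
          have h4 : ringKrullDim (MvPolynomial (Fin (n + 1)) K ⧸ (I ⊔ Ideal.span {X i})) ≤
              (s : WithBot ℕ∞) := by
            push_cast at h3
            exact ENat.WithBot.add_le_add_one_right_iff.mp h3
          obtain ⟨k, hk, hb⟩ := iht s (by omega) _ (hg_sup hI (isHomogeneous_X K i)) h4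
          refine ⟨fun N => 1 + ∑ j ∈ Finset.range (N + 1), k j, gc_sum hk, fun N => ?_⟩
          change Bd I N (1 + ∑ j ∈ Finset.range (N + 1), k j)
          induction N with
          | zero => exact bd_mono (bd_all I 0) (finrank_zero_le.trans (by omega))
          | succ N ihN =>
            rw [Finset.sum_range_succ]
            have h5 := bd_step hI (isHomogeneous_X K i) (J := I)
              (fun g hg => I.mul_mem_left _ hg) (N := N + 1) (by omega) (hb (N + 1)) ihN
            exact bd_mono h5 (by omega)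
      · obtain ⟨a, b, e, e', ha, hb, hab, haI, hbI⟩ : ∃ (a b : MvPolynomial (Fin (n + 1)) K)
            (e e' : ℕ), a.IsHomogeneous e ∧ b.IsHomogeneous e' ∧ a * b ∈ I ∧ a ∉ I ∧ b ∉ I := by
          by_contra h
          push Not at h
          apply hp
          refine prime_of hI htop fun a b e e' ha hb hab => ?_
          by_cases h1 : a ∈ I
          · exact Or.inl h1
          · exact Or.inr (h a b e e' ha hb hab h1)
        have hl1 : I < I ⊔ Ideal.span {a} := by
          refine lt_of_le_of_ne le_sup_left fun h => haI ?_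
          rw [h]
          exact Ideal.mem_sup_right (Ideal.mem_span_singleton_self a)
        have hl2 : I < cln I a := by
          refine lt_of_le_of_ne (fun x hx => I.mul_mem_left a hx) fun h => hbI ?_
          rw [h]
          exact hab
        obtain ⟨k₁, hk₁, hb₁⟩ := ihI _ hl1 (hg_sup hI ha) ((dim_mono hl1.le).trans hd)
        obtain ⟨k₂, hk₂, hb₂⟩ := ihI _ hl2 (hg_cln hI ha) ((dim_mono hl2.le).trans hd)
        refine ⟨fun N => (k₁ N + (if N < e then 0 else k₂ (N - e))) +
          (if N < e then finrank K (homogeneousSubmodule (Fin (n + 1)) K N) else 0),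
          gc_add (gc_add hk₁ (gc_shift hk₂ e)) (gc_fin _ e), fun N => ?_⟩
        by_cases hN : N < e
        · refine bd_mono (bd_all I N) ?_
          simp only [if_pos hN]
          omega
        · refine bd_mono (bd_step hI ha (J := cln I a) (fun g hg => hg) (by omega) (hb₁ N)
            (hb₂ (N - e))) ?_
          simp only [if_neg hN]
          omega

/-- **S_REL** -/
theorem t_REL : Pool.Agent.K1H47.CO.S_REL.{u} := by
  intro K _ n P hP hhP hdim G g hG hGP
  have hI : Hg (P ⊔ Ideal.span {G}) := hg_sup hhP hG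
  have h1 : ringKrullDim (MvPolynomial (Fin (n + 1)) K ⧸ (P ⊔ Ideal.span {G})) ≤
      ((2 : ℕ) : WithBot ℕ∞) := by
    have h2 := (dim_prime hP hGP).trans hdim
    have h3 : (3 : WithBot ℕ∞) = ((2 : ℕ) : WithBot ℕ∞) + 1 := by norm_num
    rw [h3] at h2
    exact ENat.WithBot.add_le_add_one_right_iff.mp h2
  obtain ⟨k, ⟨d, hd⟩, hb⟩ := main 2 _ hI h1
  refine ⟨d, fun δ A B hA hB i j => ?_⟩
  set M := d * d * δ with hM
  obtain ⟨W, hW, hWk, hf⟩ := hb (d * δ + M)
  have hfin := fin_le hW
  let I := P ⊔ Ideal.span {G}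
  refine ⟨M, ?_⟩
  let φ : (Fin (d + 1) → Fin (M + 1) → K) →ₗ[K] MvPolynomial (Fin (n + 1)) K :=
    { toFun := fun c => ∑ l : Fin (d + 1), ∑ k : Fin (M + 1),
        C (c l k) * (A ^ (l : ℕ) * B ^ (d - l) * (X i ^ (k : ℕ) * X j ^ (M - k)))
      map_add' := by
        intro c c'
        simp only [Pi.add_apply, C_add, add_mul, Finset.sum_add_distrib]
      map_smul' := by
        intro a c
        simp only [Pi.smul_apply, smul_eq_mul, C_mul, RingHom.id_apply, Finset.smul_sum,
          smul_eq_C_mul, mul_assoc] }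
  have hφ : ∀ c, (φ c).IsHomogeneous (d * δ + M) := by
    intro c
    change (∑ l : Fin (d + 1), ∑ k : Fin (M + 1),
        C (c l k) * (A ^ (l : ℕ) * B ^ (d - l) * (X i ^ (k : ℕ) * X j ^ (M - k)))).IsHomogeneous _
    rw [← mem_homogeneousSubmodule]
    refine Submodule.sum_mem _ fun l _ => Submodule.sum_mem _ fun k _ => ?_
    rw [mem_homogeneousSubmodule]
    have h1 := (hA.pow (l : ℕ)).mul (hB.pow (d - l))
    have h2 := ((isHomogeneous_X K i).pow (k : ℕ)).mul ((isHomogeneous_X K j).pow (M - k))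
    have h3 := (isHomogeneous_C (Fin (n + 1)) (c l k)).mul (h1.mul h2)
    have hl : (l : ℕ) ≤ d := Nat.lt_succ_iff.mp l.2
    have hk : (k : ℕ) ≤ M := Nat.lt_succ_iff.mp k.2
    have e : 0 + ((δ * l + δ * (d - l)) + (1 * k + 1 * (M - k))) = d * δ + M := by
      rw [← mul_add, Nat.add_sub_cancel' hl, one_mul, one_mul, Nat.add_sub_cancel' hk]
      ring
    rw [e] at h3
    exact h3
  let q : MvPolynomial (Fin (n + 1)) K →ₗ[K] (MvPolynomial (Fin (n + 1)) K ⧸ I) :=
    (Ideal.Quotient.mkₐ K I).toLinearMap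
  have hq : ∀ x, q x = 0 ↔ x ∈ I := fun x => Ideal.Quotient.eq_zero_iff_mem
  let ψ : (Fin (d + 1) → Fin (M + 1) → K) →ₗ[K] (W.map q) :=
    LinearMap.codRestrict (W.map q) (q ∘ₗ φ) (by
      intro c
      obtain ⟨w, hw, hcw⟩ := hf (φ c) (hφ c)
      refine ⟨w, hw, ?_⟩
      have h2 := (hq _).mpr hcw
      rw [map_sub, sub_eq_zero] at h2
      exact h2.symm)
  have hlt : finrank K (W.map q) < finrank K (Fin (d + 1) → Fin (M + 1) → K) := by
    have h2 : finrank K (Fin (d + 1) → Fin (M + 1) → K) = (d + 1) * (M + 1) := by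
      simp [Module.finrank_pi_fintype]
    rw [h2]
    refine (Submodule.finrank_map_le q W).trans_lt ?_
    refine (hWk.trans (hd _)).trans_lt ?_
    rw [pow_one, hM]
    nlinarith
  obtain ⟨c, hc, hc0⟩ := Submodule.exists_mem_ne_zero_of_ne_bot
    (LinearMap.ker_ne_bot_of_finrank_lt (f := ψ) hlt)
  refine ⟨c, hc0, ?_⟩
  have h2 : q (φ c) = 0 := congrArg Subtype.val (LinearMap.mem_ker.mp hc)
  exact (hq _).mp h2

end Pool.Agent.K1H65.CO
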